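import Pool.Agent.H37.CNX.Stmts

/-! # Board cnx, row XRD: reduction of polynomials modulo `r ^ p - r` -/

set_option autoImplicit false

namespace Pool.CND

theorem xrd_thm : S_XRD := by
  intro p k _ _ _ f hp
  have : Fact p.Prime := ⟨hp⟩
  induction h : f.natDegree using Nat.strong_induction_on generalizing f with
  | _ N ih =>
    rcases Nat.eq_zero_or_pos N with hN | hN
    · left
      rw [hN] at h
      obtain ⟨c, rfl⟩ := Polynomial.natDegree_eq_zero.mp h
      have hd : (Polynomial.X ^ p - (Polynomial.X + Polynomial.C c)).natDegree = p := by
        rw [Polynomial.natDegree_sub_eq_left_of_natDegree_lt, Polynomial.natDegree_X_pow]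
        rw [Polynomial.natDegree_X_add_C, Polynomial.natDegree_X_pow]
        exact hp.one_lt
      obtain ⟨u, hu⟩ := IsAlgClosed.exists_root
        (Polynomial.X ^ p - (Polynomial.X + Polynomial.C c)) (by
          intro h0
          have := Polynomial.natDegree_eq_of_degree_eq_some (n := 0) (by simpa using h0)
          rw [hd] at this
          exact hp.ne_zero this)
      refine ⟨Polynomial.C u, ?_⟩
      have hu' : u ^ p - (u + c) = 0 := by simpa [Polynomial.IsRoot] using hu
      have hc : c = u ^ p - u := by linear_combination -hu'
      rw [hc]
      simp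
    · by_cases hpN : p ∣ N
      · obtain ⟨m, rfl⟩ := hpN
        have hm : 0 < m := Nat.pos_of_mul_pos_left hN
        obtain ⟨b, hb⟩ := IsAlgClosed.exists_pow_nat_eq f.leadingCoeff hp.pos
        have hlc : f.coeff (p * m) = b ^ p := by rw [hb, Polynomial.leadingCoeff, h]
        set r0 : Polynomial k := Polynomial.C b * Polynomial.X ^ m with hr0
        have hr0p : r0 ^ p = Polynomial.C (b ^ p) * Polynomial.X ^ (p * m) := by
          rw [hr0, mul_pow, ← pow_mul, mul_comm m p, Polynomial.C_pow]
        have hmN : m < p * m := by
          calc m = 1 * m := (one_mul m).symm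
            _ < p * m := Nat.mul_lt_mul_of_pos_right hp.one_lt hm
        have hdeg : (f - (r0 ^ p - r0)).natDegree < p * m := by
          refine lt_of_le_of_lt (Polynomial.natDegree_le_iff_coeff_eq_zero.mpr
            fun i hi => ?_) (Nat.sub_lt hN one_pos)
          have hi' : p * m ≤ i := by omega
          have him : i ≠ m := by omega
          rw [hr0p, hr0, Polynomial.coeff_sub, Polynomial.coeff_sub, Polynomial.coeff_C_mul,
            Polynomial.coeff_C_mul, Polynomial.coeff_X_pow, Polynomial.coeff_X_pow, if_neg him]
          by_cases hip : i = p * m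
          · rw [if_pos hip, hip, hlc]
            ring
          · rw [if_neg hip, Polynomial.coeff_eq_zero_of_natDegree_lt (by omega)]
            ring
        rcases ih _ hdeg (f - (r0 ^ p - r0)) rfl with ⟨r, hr⟩ | ⟨D, r, hD, hpD, hr⟩
        · left
          refine ⟨r + r0, ?_⟩
          rw [add_pow_char]
          linear_combination hr
        · right
          refine ⟨D, r + r0, hD, hpD, ?_⟩
          rw [← hr]
          congr 1
          rw [add_pow_char]
          ring
      · right
        refine ⟨N, 0, hN, hpN, ?_⟩
        rw [zero_pow hp.ne_zero]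
        simpa using h

end Pool.CND
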